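import Pool.Agent.H144R3.CBFinal

set_option autoImplicit false

namespace Pool.Agent.Results.MP_8c97d4_nt.SunTwo

open Finset Pool.Agent.H144R3.CB

theorem f3_eq : ∀ a : ZMod 3, f3 a = quadraticChar (ZMod 3) a := by decide

theorem c3_eq (p : ℕ) (hp : p.Prime) (h2 : p ≠ 2) : c3 p = jacobiSym (-3) p := by
  have hodd : Odd p := hp.odd_of_ne_two h2
  have : Fact p.Prime := ⟨hp⟩
  have h3 : Fact (Nat.Prime 3) := ⟨Nat.prime_three⟩
  have h1 : c3 p = jacobiSym (p : ℤ) 3 := by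
    rw [← jacobiSym.legendreSym.to_jacobiSym 3, legendreSym, c3, f3_eq]
  rw [h1]
  have h4 : jacobiSym (-3) p = jacobiSym (-1) p * jacobiSym 3 p := by
    rw [← jacobiSym.mul_left]; norm_num
  rw [h4]
  rcases Nat.odd_mod_four_iff.1 (Nat.odd_iff.1 hodd) with h | h
  · rw [jacobiSym.at_neg_one hodd, ZMod.χ₄_nat_one_mod_four h, one_mul]
    exact (jacobiSym.quadratic_reciprocity_one_mod_four h (by decide)).trans (by norm_num)
  · have hr : jacobiSym (p : ℤ) 3 = - jacobiSym (3 : ℕ) p :=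
      jacobiSym.quadratic_reciprocity_three_mod_four h (by norm_num)
    rw [hr, jacobiSym.at_neg_one hodd, ZMod.χ₄_nat_three_mod_four h]
    push_cast
    ring

/-- **Sun's conjecture, second part**: for every prime `p` and every `r ≥ 1` the integer
`B(p^r) - (-3/p) B(p^(r-1))`, where `B(N) = ∑_{k < N} C(2k,k)` and `(-3/p)` is the Kronecker symbol
(the Jacobi symbol for odd `p`, and `-1` for `p = 2`), is divisible by `p^(2r)`. -/
theorem result (p : ℕ) (hp : p.Prime) (r : ℕ) (hr : 1 ≤ r) :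
    (p : ℤ) ^ (2 * r) ∣ (∑ k ∈ range (p ^ r), ((2 * k).choose k : ℤ)) -
      (if p = 2 then -1 else jacobiSym (-3) p) *
        ∑ k ∈ range (p ^ (r - 1)), ((2 * k).choose k : ℤ) := by
  obtain ⟨r, rfl⟩ : ∃ s, r = s + 1 := ⟨r - 1, by omega⟩
  rw [Nat.add_sub_cancel, ← SS_three_eq, ← SS_three_eq]
  by_cases h2 : p = 2
  · subst h2
    rw [if_pos rfl, neg_one_mul, sub_neg_eq_add]
    exact_mod_cast SS_two r
  · rw [if_neg h2, ← c3_eq p hp h2]
    have : Fact p.Prime := ⟨hp⟩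
    exact SS_three p h2 r

end Pool.Agent.Results.MP_8c97d4_nt.SunTwo
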